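import Mathlib
import Pool.Agent.MP_9d12fbd9_an.Field

set_option autoImplicit false

open Filter Topology

namespace Pool.Agent.Results.MP_9d12fbd9_an.Disproof

open Pool.Agent.MP_9d12fbd9_an

/-- Lower bound on the maximal field valid for each `N ≥ 1` and each auxiliary `m`. -/
lemma Phi_lower (N m : ℕ) (hN : 0 < N) (hm : 10000 ≤ m) (r : ℝ) (hr0 : 0 < r) (hr1 : r < 1) :
    33/2 ≤ (N:ℝ) * (35/2 / ((m:ℝ) + 4)
      + 85 * (Phi N r / r ^ (Real.sqrt (7/2 * ((m:ℝ) + 3))))) := by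
  have hR : 0 < r ^ (Real.sqrt (7/2 * ((m:ℝ) + 3))) := Real.rpow_pos_of_pos hr0 _
  set R := r ^ (Real.sqrt (7/2 * ((m:ℝ) + 3))) with hRdef
  have hN' : (0:ℝ) < N := by exact_mod_cast hN
  -- lower bound for every configuration
  have key : ∀ Z : Fin N → Metric.sphere (0 : EuclideanSpace ℝ (Fin 3)) 1,
      (33/2 / (N:ℝ) - 35/2 / ((m:ℝ) + 4)) / 85 * R ≤
      ⨆ x : Metric.sphere (0 : EuclideanSpace ℝ (Fin 3)) r,
      ‖field (fun j => (Z j : EuclideanSpace ℝ (Fin 3))) x‖ := by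
    intro Z
    have hZ : ∀ j, ‖(Z j : EuclideanSpace ℝ (Fin 3))‖ = 1 := by
      intro j
      have := (Z j).2
      rw [mem_sphere_zero_iff_norm] at this
      exact this
    have hbdd : BddAbove (Set.range (fun x : Metric.sphere (0 : EuclideanSpace ℝ (Fin 3)) r =>
        ‖field (fun j => (Z j : EuclideanSpace ℝ (Fin 3))) x‖)) := by
      refine ⟨1 / (1 - r)^2, ?_⟩
      rintro _ ⟨x, rfl⟩
      have hx : ‖(x : EuclideanSpace ℝ (Fin 3))‖ = r := by
        have := x.2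
        rw [mem_sphere_zero_iff_norm] at this
        exact this
      obtain ⟨L, hL1, hL2⟩ := hasFDerivAt_potential hN
        (fun j => (Z j : EuclideanSpace ℝ (Fin 3))) hZ x r hx hr1
      simp only
      rw [norm_field_eq _ _ L hL1]
      exact hL2
    set S := ⨆ x : Metric.sphere (0 : EuclideanSpace ℝ (Fin 3)) r,
      ‖field (fun j => (Z j : EuclideanSpace ℝ (Fin 3))) x‖ with hSdef
    have hle : ∀ i, ‖field (fun j => (Z j : EuclideanSpace ℝ (Fin 3)))
        (r • (Z i : EuclideanSpace ℝ (Fin 3)))‖ ≤ S := by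
      intro i
      have hmem : r • (Z i : EuclideanSpace ℝ (Fin 3))
          ∈ Metric.sphere (0 : EuclideanSpace ℝ (Fin 3)) r := by
        rw [mem_sphere_zero_iff_norm, norm_smul, hZ, mul_one, Real.norm_of_nonneg hr0.le]
      exact le_ciSup hbdd ⟨_, hmem⟩
    have hS0 : 0 ≤ S := by
      have := hle ⟨0, hN⟩
      exact (norm_nonneg _).trans this
    have h := config_bound hN hm (fun j => (Z j : EuclideanSpace ℝ (Fin 3))) hZ r hr0 hr1 S hS0 hle
    rw [← hRdef] at h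
    have h2 : 33/2 / (N:ℝ) ≤ 35/2 / ((m:ℝ) + 4) + 85 * (S / R) := by
      rw [div_le_iff₀ hN']
      linarith
    have h3 : (33/2 / (N:ℝ) - 35/2 / ((m:ℝ) + 4)) / 85 ≤ S / R := by linarith
    rw [le_div_iff₀ hR] at h3
    exact h3
  have hne : Nonempty (Fin N → Metric.sphere (0 : EuclideanSpace ℝ (Fin 3)) 1) := by
    refine ⟨fun _ => ⟨EuclideanSpace.single 0 1, ?_⟩⟩
    rw [mem_sphere_zero_iff_norm]
    simp
  have hPhi : (33/2 / (N:ℝ) - 35/2 / ((m:ℝ) + 4)) / 85 * R ≤ Phi N r := le_ciInf key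
  have h3 : (33/2 / (N:ℝ) - 35/2 / ((m:ℝ) + 4)) / 85 ≤ Phi N r / R := by
    rw [le_div_iff₀ hR]; exact hPhi
  have h4 : 33/2 / (N:ℝ) ≤ 35/2 / ((m:ℝ) + 4) + 85 * (Phi N r / R) := by linarith
  rw [div_le_iff₀ hN'] at h4
  linarith

/-- For every `r` in `(0,1)` and every `c > √(245/66) = 1.9266…`, all sufficiently large `N`
satisfy `Phi N r > r ^ (c √N)`; taking `c = 2 - ε` with `ε = 0.07` refutes the conjectured upper
bound `r ^ ((2 - o(1)) √N)` at every radius. -/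
theorem result : ∀ r : ℝ, 0 < r → r < 1 → ∀ c : ℝ, Real.sqrt (245 / 66) < c →
    ∀ᶠ N : ℕ in atTop, r ^ (c * Real.sqrt N) < Phi N r := by
  intro r hr0 hr1 c hc
  have hc0 : 0 < c := lt_of_le_of_lt (Real.sqrt_nonneg _) hc
  have hc2 : 245/66 < c ^ 2 := by
    have := Real.lt_sq_of_sqrt_lt hc
    exact this
  -- choose θ
  obtain ⟨θ, hθ1, hθ2⟩ : ∃ θ : ℝ, 35/33 < θ ∧ 7/2 * θ < c ^ 2 := by
    refine ⟨(35/33 + c^2 * (2/7)) / 2, ?_, ?_⟩ <;> linarith
  have hθ0 : 0 < θ := by linarith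
  set c1 := Real.sqrt (7/2 * θ) with hc1
  have hc1c : c1 < c := by
    rw [hc1]
    rw [Real.sqrt_lt' hc0]
    exact hθ2
  set δ := 33/2 - 35/2 / θ with hδ
  have hδ0 : 0 < δ := by
    rw [hδ]
    have : 35/2 / θ < 33/2 := by
      rw [div_lt_iff₀ hθ0]; linarith
    linarith
  set a := (c - c1) * (-Real.log r) with ha
  have hlog : 0 < -Real.log r := by
    have := Real.log_neg hr0 hr1
    linarith
  have ha0 : 0 < a := mul_pos (by linarith) hlog
  -- decay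
  have hdecay : Tendsto (fun N : ℕ => (a * Real.sqrt N)^2 * Real.exp (-(a * Real.sqrt N)))
      atTop (𝓝 0) := by
    have h1 : Tendsto (fun N : ℕ => a * Real.sqrt (N:ℝ)) atTop atTop := by
      apply Tendsto.const_mul_atTop ha0
      exact Real.tendsto_sqrt_atTop.comp tendsto_natCast_atTop_atTop
    exact (Real.tendsto_pow_mul_exp_neg_atTop_nhds_zero 2).comp h1
  have hev1 : ∀ᶠ N : ℕ in atTop, (a * Real.sqrt N)^2 * Real.exp (-(a * Real.sqrt N))
      < a^2 * (δ / 85) := by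
    apply hdecay.eventually (gt_mem_nhds _)
    positivity
  have hev2 : ∀ᶠ N : ℕ in atTop, 10004 / θ ≤ (N:ℝ) :=
    tendsto_natCast_atTop_atTop.eventually (eventually_ge_atTop _)
  filter_upwards [hev1, hev2, eventually_gt_atTop 0] with N h1 h2 hN
  have hN' : (0:ℝ) < N := by exact_mod_cast hN
  -- m = ⌊θ N⌋ - 3
  have hθN : 10004 ≤ θ * N := by
    rw [div_le_iff₀ hθ0] at h2
    linarith
  set q := ⌊θ * (N:ℝ)⌋₊ with hq
  have hq1 : (q:ℝ) ≤ θ * N := Nat.floor_le (by positivity)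
  have hq2 : θ * N < (q:ℝ) + 1 := Nat.lt_floor_add_one _
  have hq3 : 10004 ≤ q := Nat.le_floor (by exact_mod_cast hθN)
  obtain ⟨m, hm⟩ : ∃ m, q = m + 3 := ⟨q - 3, by omega⟩
  have hm' : 10000 ≤ m := by omega
  have hqm : (q:ℝ) = (m:ℝ) + 3 := by rw [hm]; push_cast; ring
  have hmain := Phi_lower N m hN hm' r hr0 hr1
  set R := r ^ (Real.sqrt (7/2 * ((m:ℝ) + 3))) with hR
  have hR0 : 0 < R := Real.rpow_pos_of_pos hr0 _
  have hR1 : r ^ (c1 * Real.sqrt N) ≤ R := by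
    rw [hR]
    apply Real.rpow_le_rpow_of_exponent_ge hr0 hr1.le
    rw [hc1, ← Real.sqrt_mul (by positivity)]
    apply Real.sqrt_le_sqrt
    rw [← hqm]
    nlinarith
  have hm4 : 35/2 / ((m:ℝ) + 4) ≤ 35/2 / (θ * N) := by
    apply div_le_div_of_nonneg_left (by norm_num) (by positivity)
    rw [hqm] at hq2
    linarith
  have h5 : δ ≤ (N:ℝ) * (85 * (Phi N r / R)) := by
    have h6 : (N:ℝ) * (35/2 / ((m:ℝ) + 4)) ≤ 35/2 / θ := by
      calc (N:ℝ) * (35/2 / ((m:ℝ) + 4)) ≤ (N:ℝ) * (35/2 / (θ * N)) :=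
            mul_le_mul_of_nonneg_left hm4 hN'.le
        _ = 35/2 / θ := by field_simp
    rw [mul_add] at hmain
    rw [hδ]
    linarith
  have h7 : δ * R ≤ (N:ℝ) * 85 * Phi N r := by
    have : (N:ℝ) * (85 * (Phi N r / R)) = ((N:ℝ) * 85 * Phi N r) / R := by ring
    rw [this, le_div_iff₀ hR0] at h5
    exact h5
  -- conclude
  have h8 : r ^ (c * Real.sqrt N) = r ^ (c1 * Real.sqrt N) * Real.exp (-(a * Real.sqrt N)) := by
    have : c * Real.sqrt N = c1 * Real.sqrt N + (c - c1) * Real.sqrt N := by ring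
    rw [this, Real.rpow_add hr0]
    congr 1
    rw [Real.rpow_def_of_pos hr0, ha]
    congr 1
    ring
  have hsq : (Real.sqrt (N:ℝ))^2 = N := Real.sq_sqrt hN'.le
  have hsq2 : (a * Real.sqrt N)^2 = a^2 * N := by rw [mul_pow a (Real.sqrt N), hsq]
  have h9 : (N:ℝ) * Real.exp (-(a * Real.sqrt N)) < δ / 85 := by
    have h10 : a^2 * ((N:ℝ) * Real.exp (-(a * Real.sqrt N))) < a^2 * (δ / 85) := by
      calc a^2 * ((N:ℝ) * Real.exp (-(a * Real.sqrt N)))
          = (a * Real.sqrt N)^2 * Real.exp (-(a * Real.sqrt N)) := by rw [hsq2]; ring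
        _ < _ := h1
    exact lt_of_mul_lt_mul_left h10 (by positivity)
  have h11 : 0 < r ^ (c1 * Real.sqrt N) := Real.rpow_pos_of_pos hr0 _
  have h12 : (N:ℝ) * 85 * (r ^ (c * Real.sqrt N)) < (N:ℝ) * 85 * Phi N r := by
    calc (N:ℝ) * 85 * (r ^ (c * Real.sqrt N))
        = 85 * (r ^ (c1 * Real.sqrt N)) * ((N:ℝ) * Real.exp (-(a * Real.sqrt N))) := by
          rw [h8]; ring
      _ < 85 * (r ^ (c1 * Real.sqrt N)) * (δ / 85) :=
          mul_lt_mul_of_pos_left h9 (by positivity)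
      _ = δ * r ^ (c1 * Real.sqrt N) := by ring
      _ ≤ δ * R := mul_le_mul_of_nonneg_left hR1 hδ0.le
      _ ≤ _ := h7
  exact lt_of_mul_lt_mul_left h12 (by positivity)

end Pool.Agent.Results.MP_9d12fbd9_an.Disproof
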